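import Pool.Agent.Helper96.NSF.Fresh
import Pool.Agent.Helper77.Eps.Calc

/-! # Packet NSF HBD: the input on the bad lists -/

open scoped ENNReal
open Finset

namespace Pool.Agent.Helper93.NSF

open Pool.Agent.Helper92.Eps
open Pool.Agent.Helper99.ZZ
open Pool.Agent.Helper96.NSF
open Pool.Agent.Helper96.KP (Good)
open Pool.Agent.Helper84.Slope (Tub)
open Pool.Agent.Helper98.Saw (Blk)

section basic

theorem take_app1 {α : Type} {q m x : List α} (h : q ++ m = x) : x.take q.length = q := by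
  subst h
  rw [List.take_append_of_le_length le_rfl, List.take_length]

theorem take_app2 {α : Type} {q m x : List α} (h : q ++ m = x) :
    x.take (q.length - 1) = q.dropLast := by
  subst h
  rw [List.take_append_of_le_length (by omega), List.dropLast_eq_take]

variable {B : Type} {D : ℕ} (A : Alph B D)

theorem H_nil : A.H [] = 0 := by simp [Alph.H]

theorem H_cons (b : B) (l : List B) : A.H (b :: l) = A.h b + A.H l := by simp [Alph.H]

theorem H_app (l m : List B) : A.H (l ++ m) = A.H l + A.H m := by simp [Alph.H]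

theorem iv_t {P : Prop} (h : P) (x : ℝ≥0∞) : iv P x = x := by
  unfold iv; exact if_pos h

theorem iv_f {P : Prop} (h : ¬ P) (x : ℝ≥0∞) : iv P x = 0 := by
  unfold iv; exact if_neg h

theorem iv_le_iv {P Q : Prop} (h : P → Q) (x : ℝ≥0∞) : iv P x ≤ iv Q x := by
  by_cases hP : P
  · rw [iv_t hP, iv_t (h hP)]
  · rw [iv_f hP]; exact zero_le

theorem iv_or {P Q : Prop} (x : ℝ≥0∞) : iv (P ∨ Q) x ≤ iv P x + iv Q x := by
  by_cases hP : P
  · rw [iv_t (Or.inl hP), iv_t hP]; exact le_self_add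
  · by_cases hQ : Q
    · rw [iv_t (Or.inr hQ), iv_t hQ]; exact le_add_self
    · rw [iv_f (by tauto)]; exact zero_le

theorem iv_and {P Q : Prop} (x : ℝ≥0∞) : iv (P ∧ Q) x = iv P (iv Q x) := by
  by_cases hP : P
  · rw [iv_t hP]
    by_cases hQ : Q
    · rw [iv_t hQ, iv_t ⟨hP, hQ⟩]
    · rw [iv_f hQ, iv_f (by tauto)]
  · rw [iv_f hP, iv_f (by tauto)]

theorem fpp_app (m : List B) : ∀ (p : List B) (T : ℕ), A.Str T p → A.fpp T (p ++ m) = p
  | [], T, hp => by
    obtain ⟨h1, h2⟩ := hp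
    rw [H_nil] at h2
    omega
  | b :: p, T, hp => by
    obtain ⟨h1, h2⟩ := hp
    by_cases hb : T < A.h b
    · have hp0 : p = [] := by
        by_contra hne
        rw [List.dropLast_cons_of_ne_nil hne, H_cons] at h1
        omega
      subst hp0
      rw [List.cons_append, Alph.fpp, if_pos hb]
    · have hne : p ≠ [] := by
        rintro rfl
        rw [H_cons, H_nil] at h2
        omega
      rw [List.dropLast_cons_of_ne_nil hne, H_cons] at h1
      rw [H_cons] at h2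
      rw [List.cons_append, Alph.fpp, if_neg hb, fpp_app m p (T - A.h b) ⟨by omega, by omega⟩]

theorem fpp_self {p : List B} {T : ℕ} (h : A.Str T p) : A.fpp T p = p := by
  have := fpp_app A [] p T h
  rwa [List.append_nil] at this

/-- The stopped list is a prefix. -/
theorem fpp_pre : ∀ (l : List B) (T : ℕ), A.fpp T l ++ l.drop (A.fpp T l).length = l
  | [], T => by simp [Alph.fpp]
  | b :: l, T => by
    by_cases hb : T < A.h b
    · rw [Alph.fpp, if_pos hb]
      simp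
    · rw [Alph.fpp, if_neg hb, List.length_cons, List.drop_succ_cons, List.cons_append,
        fpp_pre l (T - A.h b)]

theorem fpp_H {l : List B} {T : ℕ} (h : T < A.H l) (hc : Calc A) : T < A.H (A.fpp T l) :=
  (hc.fpp_str T l h).1.2

theorem GG_const (hc : Calc A) (T : ℕ) (x : ℝ≥0∞) : A.GG T (fun _ => x) = x := by
  have := hc.GG_smul T x (fun _ => 1)
  rw [hc.GG_one, mul_one] at this
  simpa using this

theorem GG_congr (hc : Calc A) {T : ℕ} {φ ψ : List B → ℝ≥0∞} (h : ∀ l, A.Str T l → φ l = ψ l) :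
    A.GG T φ = A.GG T ψ :=
  le_antisymm (hc.GG_mono _ _ _ fun l hl => (h l hl).le)
    (hc.GG_mono _ _ _ fun l hl => (h l hl).ge)

theorem GG_fpp (hc : Calc A) {T R : ℕ} (hT : T ≤ R) (ψ : List B → ℝ≥0∞) :
    A.GG R (fun x => ψ (A.fpp T x)) = A.GG T ψ := by
  rw [hc.GG_split T R _ hT]
  refine GG_congr A hc fun p hp => ?_
  split_ifs with h
  · rw [fpp_self A hp]
  · have h1 : (fun q => ψ (A.fpp T (p ++ q))) = fun _ => ψ p := by
      funext q
      rw [fpp_app A q p T hp]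
    rw [h1, GG_const A hc]

theorem gl_add (h : ℕ) (k : ℕ) : ∀ (j : ℕ) (l : List B), gl A h (j + k) l =
    gl A h j l ++ gl A h k (l.drop (gl A h j l).flatten.length)
  | 0, l => by simp [gl]
  | j + 1, l => by
    rw [show j + 1 + k = (j + k) + 1 by omega, gl, gl, gl_add h k j, List.cons_append,
      List.flatten_cons, List.length_append, List.drop_drop]

theorem gl_pre (h : ℕ) : ∀ (k : ℕ) (l : List B),
    (gl A h k l).flatten ++ l.drop (gl A h k l).flatten.length = l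
  | 0, l => by simp [gl]
  | k + 1, l => by
    rw [gl, List.flatten_cons, List.length_append, ← List.drop_drop, List.append_assoc,
      gl_pre h k, fpp_pre]

theorem gl_len (h : ℕ) : ∀ (k : ℕ) (l : List B), (gl A h k l).length = k
  | 0, l => by simp [gl]
  | k + 1, l => by rw [gl, List.length_cons, gl_len h k]

theorem gl_compl (hc : Calc A) {h y : ℕ} (hy : h ≤ y) : ∀ (k : ℕ) (q : List B),
    (∀ g ∈ gl A h k q, A.H g ≤ y) → k * y < A.H q →
    (∀ g ∈ gl A h k q, h < A.H g) ∧ A.H (gl A h k q).flatten ≤ k * y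
  | 0, q, _, _ => by
    constructor
    · intro g hg
      simp [gl] at hg
    · simp [gl, Alph.H]
  | k + 1, q, h1, h2 => by
    have e1 := fpp_pre A q h
    have e2 : A.H q = A.H (A.fpp h q) + A.H (q.drop (A.fpp h q).length) := by
      rw [← H_app, e1]
    have e3 : A.H (A.fpp h q) ≤ y := h1 _ (by rw [gl]; exact List.mem_cons_self)
    have e4 : (k + 1) * y = k * y + y := by ring
    obtain ⟨i1, i2⟩ := gl_compl hc hy k (q.drop (A.fpp h q).length)
      (fun g hg => h1 g (by rw [gl]; exact List.mem_cons_of_mem _ hg)) (by omega)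
    constructor
    · intro g hg
      rw [gl] at hg
      rcases List.mem_cons.1 hg with rfl | hg
      · exact fpp_H A (by omega) hc
      · exact i1 g hg
    · rw [gl, List.flatten_cons, H_app]
      omega

/-- The first split of a fresh list. -/
theorem fresh (hS : SMK_stmt) (hc : Calc A) {c1 m R R0 : ℕ} (hm : c1 ≤ m) (hR : m + R0 ≤ R)
    (ψ : List B → ℝ≥0∞) (K : ℝ≥0∞) (hK : ∀ R', R0 ≤ R' → A.GG R' ψ ≤ K) :
    A.GG R (fun x => iv (A.H (A.fpp c1 x) ≤ m) (ψ (x.drop (A.fpp c1 x).length))) ≤ K := by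
  have h := hS A hc c1 m 1 R0 R ψ K hm (by omega) hK
  refine le_trans (le_of_eq ?_) h
  congr 1
  funext x
  simp only [gl, List.mem_singleton, forall_eq, List.flatten_cons, List.flatten_nil,
    List.append_nil]

end basic

section det

variable {n : ℕ} {A : Alph (Option Blk) n}

/-- Height of the rest. -/
theorem H_fpp_drop (T : ℕ) (x : List (Option Blk)) :
    A.H x = A.H (A.fpp T x) + A.H (x.drop (A.fpp T x).length) := by
  rw [← H_app, fpp_pre]

theorem H_gl_drop (h k : ℕ) (x : List (Option Blk)) :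
    A.H x = A.H (gl A h k x).flatten + A.H (x.drop (gl A h k x).flatten.length) := by
  rw [← H_app, gl_pre]

/-- The deterministic part. -/
theorem det (hc : Calc A) {P : FPar} {J a a1 y R Z W : ℕ} (c0 : P.c0 = 2 ^ (J - a))
    (hy : P.h ≤ y) (yc : 16 * (P.N * y) ≤ P.c0) (c1 : 8 * P.c1 ≤ P.c0) (w0 : 8 * P.w0 ≤ P.c0)
    (hN : 1 ≤ P.N) (hZ : 2 ^ (J - 3) = 4 * Z) (hZ2 : 2 ^ (J - 2) = 8 * Z)
    (hW : 2 ^ (J - a1) = W) (_hW2 : 2 ^ (J - a1 + 1) = 2 * W) (hWZ : W ≤ Z) (hcW : 4 * P.c0 ≤ W)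
    (hc0 : 1 ≤ P.c0) {p0 x : List (Option Blk)}
    (hp0 : A.Str P.c0 p0) (hp1 : A.H p0 ≤ W) (hR : 8 * Z ≤ R) (hx : R < A.H x)
    (hG : ¬ GdF A P J a a1 (p0 ++ x)) (hj1 : ¬ Jmp A (J - a) (J - a1) (p0 ++ x))
    (hj2 : ¬ Jmp A (J - a1 + 1) (J - 3) (p0 ++ x)) :
    (P.c0 < 8 * A.H (A.fpp P.c1 x)) ∨
    (A.H (A.fpp P.c1 x) ≤ P.c0 / 8 ∧
      ∃ g ∈ gl A P.h (2 * P.N) (x.drop (A.fpp P.c1 x).length), y < A.H g) ∨
    (A.H (A.fpp P.c1 x) ≤ P.c0 / 8 ∧
      (∀ g ∈ gl A P.h P.N (x.drop (A.fpp P.c1 x).length), A.H g ≤ y) ∧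
      sn A P.h P.Dd (gl A P.h P.N (x.drop (A.fpp P.c1 x).length)) < P.n0) ∨
    (A.H (A.fpp P.c1 x) ≤ P.c0 / 8 ∧
      (∀ g ∈ gl A P.h P.N (x.drop (A.fpp P.c1 x).length), A.H g ≤ y) ∧
      (∀ g ∈ gl A P.h P.N ((x.drop (A.fpp P.c1 x).length).drop
        (gl A P.h P.N (x.drop (A.fpp P.c1 x).length)).flatten.length), A.H g ≤ y) ∧
      sn A P.h P.Dd (gl A P.h P.N ((x.drop (A.fpp P.c1 x).length).drop
        (gl A P.h P.N (x.drop (A.fpp P.c1 x).length)).flatten.length)) < P.n0) ∨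
    (A.H (A.fpp P.c1 x) ≤ P.c0 / 8 ∧
      (∀ g ∈ gl A P.h P.N (x.drop (A.fpp P.c1 x).length), A.H g ≤ y) ∧
      (P.c0 < 8 * A.H (A.fpp P.w0 ((x.drop (A.fpp P.c1 x).length).drop
        (gl A P.h P.N (x.drop (A.fpp P.c1 x).length)).flatten.length)) ∨
      ¬ Tub P.ρ (A.fpp P.w0 ((x.drop (A.fpp P.c1 x).length).drop
        (gl A P.h P.N (x.drop (A.fpp P.c1 x).length)).flatten.length)))) ∨
    (A.H (A.fpp (2 * P.c0) x) ≤ 2 ^ (J - 3) ∧ ¬ Tub P.Eb (A.fpp (2 * P.c0) x)) := by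
  set x1 := x.drop (A.fpp P.c1 x).length with hx1
  set x2 := x1.drop (gl A P.h P.N x1).flatten.length with hx2
  by_contra hcon
  simp only [not_or] at hcon
  obtain ⟨k1, k2, k3, k4, k5, k6⟩ := hcon
  have k1' : A.H (A.fpp P.c1 x) ≤ P.c0 / 8 := by omega
  have k2' : ∀ g ∈ gl A P.h (2 * P.N) x1, A.H g ≤ y := by
    intro g hg
    by_contra hlt
    exact k2 ⟨k1', g, hg, by omega⟩
  have hadd : gl A P.h (2 * P.N) x1 = gl A P.h P.N x1 ++ gl A P.h P.N x2 := by
    rw [two_mul, gl_add]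
  have k2a : ∀ g ∈ gl A P.h P.N x1, A.H g ≤ y := fun g hg => k2' g (by
    rw [hadd]; exact List.mem_append_left _ hg)
  have k2b : ∀ g ∈ gl A P.h P.N x2, A.H g ≤ y := fun g hg => k2' g (by
    rw [hadd]; exact List.mem_append_right _ hg)
  have e1 : A.H x = A.H (A.fpp P.c1 x) + A.H x1 := H_fpp_drop P.c1 x
  have e2 : A.H x1 = A.H (gl A P.h P.N x1).flatten + A.H x2 := H_gl_drop P.h P.N x1
  have n1 : 2 * P.N * y = 2 * (P.N * y) := by ring
  have n2 : y ≤ P.N * y := by
    calc y = 1 * y := (one_mul y).symm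
      _ ≤ P.N * y := Nat.mul_le_mul_right _ hN
  obtain ⟨g1, g2⟩ := gl_compl A hc hy (2 * P.N) x1 k2' (by omega)
  obtain ⟨g3, g4⟩ := gl_compl A hc hy P.N x1 k2a (by omega)
  have f1 : A.fpp P.c0 (p0 ++ x) = p0 := fpp_app A x p0 P.c0 hp0
  have f2 : (p0 ++ x).drop p0.length = x := List.drop_left
  have f3 : z0 A P (p0 ++ x) = p0 ++ A.fpp P.c1 x := by
    unfold z0
    rw [f1, f2]
  have f4 : (p0 ++ x).drop (z0 A P (p0 ++ x)).length = x1 := by
    rw [f3, List.length_append, ← List.drop_drop, f2]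
  have f5 : ∀ k, gr A P k (p0 ++ x) = gl A P.h k x1 := by
    intro k
    unfold gr
    rw [f4]
  have f6 : ∀ k, zk A P k (p0 ++ x) = p0 ++ A.fpp P.c1 x ++ (gl A P.h k x1).flatten := by
    intro k
    unfold zk
    rw [f3, f5]
  have f7 : (p0 ++ x).drop (zk A P P.N (p0 ++ x)).length = x2 := by
    rw [f6, List.length_append, List.length_append, ← List.drop_drop, ← List.drop_drop, f2]
  have s2 : P.c1 < A.H (A.fpp P.c1 x) := fpp_H A (by omega) hc
  have s3 : P.w0 < A.H (A.fpp P.w0 x2) := fpp_H A (by omega) hc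
  have s4 : 2 * P.c0 < A.H (A.fpp (2 * P.c0) x) := fpp_H A (by omega) hc
  have hz0 : A.H (z0 A P (p0 ++ x)) = A.H p0 + A.H (A.fpp P.c1 x) := by rw [f3, H_app]
  have hz2 : A.H (zk A P (2 * P.N) (p0 ++ x)) = A.H p0 + A.H (A.fpp P.c1 x) +
      A.H (gl A P.h (2 * P.N) x1).flatten := by rw [f6, H_app, H_app]
  -- the last one
  have hl : A.H (A.fpp (2 * P.c0) x) ≤ 2 ^ (J - 3) := by
    obtain ⟨⟨t1, t2⟩, m, hm⟩ := hc.fpp_str (2 * P.c0) x (by omega)
    by_contra hlt
    refine hj2 ⟨p0.length + ((A.fpp (2 * P.c0) x).length - 1), ?_, ?_, ?_⟩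
    · have : (A.fpp (2 * P.c0) x).length ≠ 0 := by
        intro h0
        rw [List.length_eq_zero_iff] at h0
        rw [h0, H_nil] at t2
        omega
      have h4 : x.length = (A.fpp (2 * P.c0) x).length + m.length := by
        conv_lhs => rw [hm]
        rw [List.length_append]
      rw [List.length_append]
      omega
    · have h3 : (p0 ++ x).take (p0.length + ((A.fpp (2 * P.c0) x).length - 1)) =
          p0 ++ (A.fpp (2 * P.c0) x).dropLast := by
        rw [List.take_length_add_append, take_app2 hm.symm]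
      rw [h3, H_app]
      omega
    · have h3 : (p0 ++ x).take (p0.length + ((A.fpp (2 * P.c0) x).length - 1) + 1) =
          p0 ++ A.fpp (2 * P.c0) x := by
        have : (A.fpp (2 * P.c0) x).length ≠ 0 := by
          intro h0
          rw [List.length_eq_zero_iff] at h0
          rw [h0, H_nil] at t2
          omega
        rw [show p0.length + ((A.fpp (2 * P.c0) x).length - 1) + 1 =
          p0.length + (A.fpp (2 * P.c0) x).length by omega, List.take_length_add_append,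
          take_app1 hm.symm]
      rw [h3, H_app]
      omega
  refine hG ⟨⟨?_, ?_, ?_, ?_⟩, hj1, hj2, ?_, ?_, ⟨?_, ?_⟩, ?_, ?_, ?_, ?_, ?_⟩
  · rw [f1]
    exact hp0.2
  · rw [f1, f2]
    exact s2
  · rw [f5]
    exact g1
  · rw [hz2]
    omega
  · rw [hz0, f1]
    omega
  · rw [hz2, hz0]
    omega
  · rw [f5]
    by_contra hlt
    exact k3 ⟨k1', k2a, by omega⟩
  · rw [f5, hadd, List.drop_left' (gl_len A P.h P.N x1)]
    by_contra hlt
    exact k4 ⟨k1', k2a, k2b, by omega⟩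
  · rw [f7]
    exact s3
  · rw [f7]
    by_contra hlt
    exact k5 ⟨k1', k2a, Or.inl (by omega)⟩
  · rw [f7]
    by_contra hlt
    exact k5 ⟨k1', k2a, Or.inr hlt⟩
  · rw [f1, f2]
    exact s4
  · rw [f1, f2]
    by_contra hlt
    exact k6 ⟨hl, hlt⟩

end det

theorem sixteen {M1 M2 M3 M4 M5 M6 η : ℝ≥0∞} (h1 : 16 * M1 ≤ η) (h2 : 16 * M2 ≤ η)
    (h3 : 16 * M3 ≤ η) (h4 : 16 * M4 ≤ η) (h5 : 16 * M5 ≤ η) (h6 : 16 * M6 ≤ η) :
    M1 + (M2 + (M3 + (M4 + (M5 + M6)))) ≤ η := by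
  have h : 16 * (M1 + (M2 + (M3 + (M4 + (M5 + M6))))) ≤ 16 * η := by
    calc 16 * (M1 + (M2 + (M3 + (M4 + (M5 + M6)))))
        = 16 * M1 + (16 * M2 + (16 * M3 + (16 * M4 + (16 * M5 + 16 * M6)))) := by ring
      _ ≤ η + (η + (η + (η + (η + η)))) := by gcongr
      _ = 6 * η := by ring
      _ ≤ 16 * η := by gcongr; norm_num
  exact (ENNReal.mul_le_mul_iff_right (by norm_num) (by norm_num)).1 h

/-- Packet HBD. -/
theorem HBD (hF : FLIP_stmt) (hSMK : SMK_stmt) (hSGR : SGR_stmt) : HBD_stmt := by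
  intro n A hGood P J a a1 y p η hP ha1 ha hJ
  have hc : Calc A := Pool.Agent.Helper77.Eps.stmtCalc A
  refine ⟨?_, ?_, ?_⟩
  · have h := hF A P (2 ^ (J - 2))
    rw [hP.c0] at h
    exact h
  · intro p hp
    have hp' : GdF A P J a a1 p := not_not.1 hp
    exact hp'.gd
  · intro r _ hr φ
    -- numbers
    have hc0 := hP.c0
    have hc1 := hP.c1
    have hw0 := hP.w0
    have hN := hP.hN
    have hy := hP.hy
    have yc : 16 * (P.N * y) ≤ P.c0 := by
      have := hP.yc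
      rw [mul_assoc] at this
      exact this
    have n2 : y ≤ P.N * y := by
      calc y = 1 * y := (one_mul y).symm
        _ ≤ P.N * y := Nat.mul_le_mul_right _ hN
    have n1 : 2 * P.N * y = 2 * (P.N * y) := by ring
    obtain ⟨Z, hZ⟩ : ∃ Z, Z = 2 ^ (J - 5) := ⟨_, rfl⟩
    obtain ⟨W, hW⟩ : ∃ W, W = 2 ^ (J - a1) := ⟨_, rfl⟩
    have z3 : 2 ^ (J - 3) = 4 * Z := by
      rw [hZ, show J - 3 = (J - 5) + 2 by omega, pow_add]; ring
    have z2 : 2 ^ (J - 2) = 8 * Z := by
      rw [hZ, show J - 2 = (J - 5) + 3 by omega, pow_add]; ring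
    have z1 : 2 ^ (J - 1) = 16 * Z := by
      rw [hZ, show J - 1 = (J - 5) + 4 by omega, pow_add]; ring
    have w1 : 2 ^ (J - a1 + 1) = 2 * W := by rw [hW, pow_succ]; ring
    have wz : W ≤ Z := by
      rw [hW, hZ]
      exact Nat.pow_le_pow_right (by norm_num) (by omega)
    have cw : 4 * P.c0 ≤ W := by
      rw [hW, hc0]
      calc 4 * 2 ^ (J - a) = 2 ^ (J - a + 2) := by rw [pow_add]; ring
        _ ≤ 2 ^ (J - a1) := Nat.pow_le_pow_right (by norm_num) (by omega)
    have c1' : 1 ≤ P.c0 := by rw [hc0]; exact Nat.one_le_two_pow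
    have hr1 : 16 * Z ≤ r := by rw [← z1]; exact hr
    have e0 : ∀ ψ : List (Option Blk) → ℝ≥0∞, GS A r ψ = A.GG r ψ := by
      intro ψ
      unfold GS
      rw [if_neg (by omega)]
    rw [e0, e0, ← hc0, hc.GG_split P.c0 r _ (by omega), hc.GG_split P.c0 r _ (by omega),
      ← hc.GG_smul]
    refine hc.GG_mono _ _ _ fun p0 hp0 => ?_
    have hself : A.fpp P.c0 p0 = p0 := fpp_self A hp0
    have happ : ∀ q, A.fpp P.c0 (p0 ++ q) = p0 := fun q => fpp_app A q p0 P.c0 hp0
    have hne : p0.length ≠ 0 := by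
      intro h0
      rw [List.length_eq_zero_iff] at h0
      have := hp0.2
      rw [h0, H_nil] at this
      omega
    by_cases hbig : W < A.H p0
    · -- a jump
      have hJ1 : ∀ q, Jmp A (J - a) (J - a1) (p0 ++ q) := by
        intro q
        refine ⟨p0.length - 1, ?_, ?_, ?_⟩
        · rw [List.length_append]
          omega
        · rw [take_app2 (q := p0) (m := q) rfl, ← hc0]
          exact hp0.1
        · rw [show p0.length - 1 + 1 = p0.length by omega, take_app1 (q := p0) (m := q) rfl, ← hW]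
          exact hbig
      have hJ0 : Jmp A (J - a) (J - a1) p0 := by
        have := hJ1 []
        rwa [List.append_nil] at this
      split_ifs with h1
      · rw [iv_f (by tauto)]
        exact zero_le
      · have h2 : (fun q => iv (¬ GdF A P J a a1 (p0 ++ q) ∧
            ¬ Jmp A (J - a) (J - a1) (p0 ++ q) ∧ ¬ Jmp A (J - a1 + 1) (J - 3) (p0 ++ q))
            (φ (A.fpp P.c0 (p0 ++ q)))) = fun _ => 0 := by
          funext q
          exact iv_f (fun h => h.2.1 (hJ1 q)) _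
        rw [h2, GG_const A hc]
        exact zero_le
    · have hs : ¬ r < A.H p0 := by omega
      rw [if_neg hs, if_neg hs]
      obtain ⟨R, hR⟩ : ∃ R, R = r - A.H p0 := ⟨_, rfl⟩
      rw [← hR]
      have hR8 : 15 * Z ≤ R := by omega
      simp only [happ]
      rw [GG_const A hc]
      have hfac : (fun q => iv (¬ GdF A P J a a1 (p0 ++ q) ∧
            ¬ Jmp A (J - a) (J - a1) (p0 ++ q) ∧ ¬ Jmp A (J - a1 + 1) (J - 3) (p0 ++ q))
            (φ p0)) = fun q => φ p0 * iv (¬ GdF A P J a a1 (p0 ++ q) ∧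
            ¬ Jmp A (J - a) (J - a1) (p0 ++ q) ∧ ¬ Jmp A (J - a1 + 1) (J - 3) (p0 ++ q)) 1 := by
        funext q
        by_cases h : (¬ GdF A P J a a1 (p0 ++ q) ∧
            ¬ Jmp A (J - a) (J - a1) (p0 ++ q) ∧ ¬ Jmp A (J - a1 + 1) (J - 3) (p0 ++ q))
        · rw [iv_t h, iv_t h, mul_one]
        · rw [iv_f h, iv_f h, mul_zero]
      rw [hfac, hc.GG_smul, mul_comm]
      refine mul_le_mul_left ?_ _
      -- the six masses
      have key : A.GG R (fun x => iv (¬ GdF A P J a a1 (p0 ++ x) ∧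
            ¬ Jmp A (J - a) (J - a1) (p0 ++ x) ∧ ¬ Jmp A (J - a1 + 1) (J - 3) (p0 ++ x)) 1) ≤
          A.GG R (fun x => iv (P.c0 < 8 * A.H (A.fpp P.c1 x)) 1) +
          (A.GG R (fun x => iv (A.H (A.fpp P.c1 x) ≤ P.c0 / 8 ∧
            ∃ g ∈ gl A P.h (2 * P.N) (x.drop (A.fpp P.c1 x).length), y < A.H g) 1) +
          (A.GG R (fun x => iv (A.H (A.fpp P.c1 x) ≤ P.c0 / 8 ∧
            (∀ g ∈ gl A P.h P.N (x.drop (A.fpp P.c1 x).length), A.H g ≤ y) ∧
            sn A P.h P.Dd (gl A P.h P.N (x.drop (A.fpp P.c1 x).length)) < P.n0) 1) +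
          (A.GG R (fun x => iv (A.H (A.fpp P.c1 x) ≤ P.c0 / 8 ∧
            (∀ g ∈ gl A P.h P.N (x.drop (A.fpp P.c1 x).length), A.H g ≤ y) ∧
            (∀ g ∈ gl A P.h P.N ((x.drop (A.fpp P.c1 x).length).drop
              (gl A P.h P.N (x.drop (A.fpp P.c1 x).length)).flatten.length), A.H g ≤ y) ∧
            sn A P.h P.Dd (gl A P.h P.N ((x.drop (A.fpp P.c1 x).length).drop
              (gl A P.h P.N (x.drop (A.fpp P.c1 x).length)).flatten.length)) < P.n0) 1) +
          (A.GG R (fun x => iv (A.H (A.fpp P.c1 x) ≤ P.c0 / 8 ∧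
            (∀ g ∈ gl A P.h P.N (x.drop (A.fpp P.c1 x).length), A.H g ≤ y) ∧
            (P.c0 < 8 * A.H (A.fpp P.w0 ((x.drop (A.fpp P.c1 x).length).drop
              (gl A P.h P.N (x.drop (A.fpp P.c1 x).length)).flatten.length)) ∨
            ¬ Tub P.ρ (A.fpp P.w0 ((x.drop (A.fpp P.c1 x).length).drop
              (gl A P.h P.N (x.drop (A.fpp P.c1 x).length)).flatten.length)))) 1) +
          A.GG R (fun x => iv (A.H (A.fpp (2 * P.c0) x) ≤ 2 ^ (J - 3) ∧
            ¬ Tub P.Eb (A.fpp (2 * P.c0) x)) 1))))) := by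
        rw [← hc.GG_addf, ← hc.GG_addf, ← hc.GG_addf, ← hc.GG_addf, ← hc.GG_addf]
        refine hc.GG_mono _ _ _ fun x hx => ?_
        refine le_trans (iv_le_iv (Q := _) (fun h => det hc hc0 hy yc hc1 hw0 hN z3 z2 hW.symm w1
          wz cw c1' hp0 (by omega) (by omega : 8 * Z ≤ R) hx.2 h.1 h.2.1 h.2.2) 1) ?_
        refine le_trans (iv_or 1) (add_le_add le_rfl ?_)
        refine le_trans (iv_or 1) (add_le_add le_rfl ?_)
        refine le_trans (iv_or 1) (add_le_add le_rfl ?_)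
        refine le_trans (iv_or 1) (add_le_add le_rfl ?_)
        exact iv_or 1
      refine le_trans key (sixteen ?_ ?_ ?_ ?_ ?_ ?_)
      · have h := GG_fpp A hc (T := P.c1) (R := R) (by omega) (fun l => iv (P.c0 < 8 * A.H l) 1)
        rw [h]
        exact hP.pc1
      · have h := fresh A hSMK hc (c1 := P.c1) (m := P.c0 / 8) (R := R) (R0 := 2 * P.N * y + P.h)
          (by omega) (by omega)
          (fun x1 => iv (∃ g ∈ gl A P.h (2 * P.N) x1, y < A.H g) 1)
          (((2 * P.N : ℕ) : ℝ≥0∞) * A.GG P.h (fun g => iv (y < A.H g) 1))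
          (fun R' hR' => (hSGR A hc P.h y (2 * P.N) R' hy hR').1)
        simp only [← iv_and] at h
        refine le_trans (mul_le_mul_right h _) ?_
        have := hP.pg
        push_cast
        exact this
      · have h := fresh A hSMK hc (c1 := P.c1) (m := P.c0 / 8) (R := R) (R0 := P.N * y + P.h)
          (by omega) (by omega)
          (fun x1 => iv ((∀ g ∈ gl A P.h P.N x1, A.H g ≤ y) ∧
            sn A P.h P.Dd (gl A P.h P.N x1) < P.n0) 1)
          (ENNReal.ofReal (2 ^ P.n0 * (1 - p / 2) ^ P.N))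
          (fun R' hR' => (hSGR A hc P.h y P.N R' hy hR').2 P.Dd P.n0 p hP.p0 hP.p1 hP.ps)
        simp only [← iv_and] at h
        refine le_trans (mul_le_mul_right h _) (le_trans (le_of_eq ?_) hP.pn)
        rw [ENNReal.ofReal_mul (by norm_num : (0 : ℝ) ≤ 16)]
        norm_num
      · have h := fresh A hSMK hc (c1 := P.c1) (m := P.c0 / 8) (R := R)
          (R0 := P.N * y + (P.N * y + P.h)) (by omega) (by omega)
          (fun x1 => iv (∀ g ∈ gl A P.h P.N x1, A.H g ≤ y) (iv ((∀ g ∈ gl A P.h P.N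
            (x1.drop (gl A P.h P.N x1).flatten.length), A.H g ≤ y) ∧
            sn A P.h P.Dd (gl A P.h P.N (x1.drop (gl A P.h P.N x1).flatten.length)) < P.n0) 1))
          (ENNReal.ofReal (2 ^ P.n0 * (1 - p / 2) ^ P.N))
          (fun R' hR' => hSMK A hc P.h y P.N (P.N * y + P.h) R'
            (fun x2 => iv ((∀ g ∈ gl A P.h P.N x2, A.H g ≤ y) ∧
              sn A P.h P.Dd (gl A P.h P.N x2) < P.n0) 1) _ hy hR'
            (fun R'' hR'' => (hSGR A hc P.h y P.N R'' hy hR'').2 P.Dd P.n0 p hP.p0 hP.p1 hP.ps))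
        simp only [← iv_and] at h
        refine le_trans (mul_le_mul_right h _) (le_trans (le_of_eq ?_) hP.pn)
        rw [ENNReal.ofReal_mul (by norm_num : (0 : ℝ) ≤ 16)]
        norm_num
      · have h := fresh A hSMK hc (c1 := P.c1) (m := P.c0 / 8) (R := R)
          (R0 := P.N * y + P.w0) (by omega) (by omega)
          (fun x1 => iv (∀ g ∈ gl A P.h P.N x1, A.H g ≤ y) (iv (P.c0 < 8 * A.H (A.fpp P.w0
            (x1.drop (gl A P.h P.N x1).flatten.length)) ∨ ¬ Tub P.ρ (A.fpp P.w0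
            (x1.drop (gl A P.h P.N x1).flatten.length))) 1))
          (A.GG P.w0 (fun l => iv (P.c0 < 8 * A.H l ∨ ¬ Tub P.ρ l) 1))
          (fun R' hR' => hSMK A hc P.h y P.N P.w0 R'
            (fun x2 => iv (P.c0 < 8 * A.H (A.fpp P.w0 x2) ∨ ¬ Tub P.ρ (A.fpp P.w0 x2)) 1) _ hy hR'
            (fun R'' hR'' => le_of_eq (GG_fpp A hc hR''
              (fun l => iv (P.c0 < 8 * A.H l ∨ ¬ Tub P.ρ l) 1))))
        simp only [← iv_and] at h
        exact le_trans (mul_le_mul_right h _) hP.pw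
      · have h := GG_fpp A hc (T := 2 * P.c0) (R := R) (by omega)
          (fun l => iv (A.H l ≤ 2 ^ (J - 3) ∧ ¬ Tub P.Eb l) 1)
        rw [h]
        exact hP.pe

end Pool.Agent.Helper93.NSF
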