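import Pool.Agent.Helper96.NSF.Fresh

/-! # Packet NSF SGR: tall groups and few successes -/

open scoped ENNReal
open Finset

namespace Pool.Agent.Helper93.NSF.Sgr

open Pool.Agent.Helper92.Eps
open Pool.Agent.Helper99.ZZ
open Pool.Agent.Helper96.NSF

variable {B : Type} {D : ℕ} (A : Alph B D)

theorem H_nil : A.H [] = 0 := by simp [Alph.H]

theorem H_cons (b : B) (l : List B) : A.H (b :: l) = A.h b + A.H l := by simp [Alph.H]

theorem iv_t {P : Prop} (h : P) (x : ℝ≥0∞) : iv P x = x := by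
  unfold iv; exact if_pos h

theorem iv_f {P : Prop} (h : ¬ P) (x : ℝ≥0∞) : iv P x = 0 := by
  unfold iv; exact if_neg h

theorem fpp_app (m : List B) : ∀ (p : List B) (T : ℕ), A.Str T p → A.fpp T (p ++ m) = p
  | [], T, hp => by
    obtain ⟨h1, h2⟩ := hp
    rw [H_nil] at h2
    omega
  | b :: p, T, hp => by
    obtain ⟨h1, h2⟩ := hp
    by_cases hb : T < A.h b
    · have hp0 : p = [] := by
        by_contra hne
        rw [List.dropLast_cons_of_ne_nil hne, H_cons] at h1
        omega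
      subst hp0
      rw [List.cons_append, Alph.fpp, if_pos hb]
    · have hne : p ≠ [] := by
        rintro rfl
        rw [H_cons, H_nil] at h2
        omega
      rw [List.dropLast_cons_of_ne_nil hne, H_cons] at h1
      rw [H_cons] at h2
      rw [List.cons_append, Alph.fpp, if_neg hb, fpp_app m p (T - A.h b) ⟨by omega, by omega⟩]

theorem fpp_self {p : List B} {T : ℕ} (h : A.Str T p) : A.fpp T p = p := by
  have := fpp_app A [] p T h
  rwa [List.append_nil] at this

theorem GG_const (hc : Calc A) (T : ℕ) (x : ℝ≥0∞) : A.GG T (fun _ => x) = x := by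
  have := hc.GG_smul T x (fun _ => 1)
  rw [hc.GG_one, mul_one] at this
  simpa using this

theorem GG_congr (hc : Calc A) {T : ℕ} {φ ψ : List B → ℝ≥0∞} (h : ∀ l, A.Str T l → φ l = ψ l) :
    A.GG T φ = A.GG T ψ :=
  le_antisymm (hc.GG_mono _ _ _ fun l hl => (h l hl).le)
    (hc.GG_mono _ _ _ fun l hl => (h l hl).ge)

theorem GG_fpp (hc : Calc A) {T R : ℕ} (hT : T ≤ R) (ψ : List B → ℝ≥0∞) :
    A.GG R (fun x => ψ (A.fpp T x)) = A.GG T ψ := by
  rw [hc.GG_split T R _ hT]
  refine GG_congr A hc fun p hp => ?_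
  split_ifs with h
  · rw [fpp_self A hp]
  · have h1 : (fun q => ψ (A.fpp T (p ++ q))) = fun _ => ψ p := by
      funext q
      rw [fpp_app A q p T hp]
    rw [h1, GG_const A hc]

/-- One group. -/
theorem step (hc : Calc A) {h y R0 R : ℕ} (hy : h ≤ y) (hR : y + R0 ≤ R)
    (f ψ : List B → ℝ≥0∞) (K : ℝ≥0∞) (hf : ∀ p, y < A.H p → f p = 0)
    (hK : ∀ R', R0 ≤ R' → A.GG R' ψ ≤ K) :
    A.GG R (fun x => f (A.fpp h x) * ψ (x.drop (A.fpp h x).length)) ≤ A.GG h f * K := by
  rw [hc.GG_split h R _ (by omega), mul_comm (A.GG h f) K, ← hc.GG_smul]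
  refine hc.GG_mono _ _ _ fun p hp => ?_
  by_cases hH : y < A.H p
  · have h0 : f p = 0 := hf p hH
    split_ifs with h1
    · rw [fpp_self A hp, h0, zero_mul]
      exact zero_le
    · have h2 : (fun q => f (A.fpp h (p ++ q)) * ψ ((p ++ q).drop (A.fpp h (p ++ q)).length)) =
          fun _ => 0 := by
        funext q
        rw [fpp_app A q p h hp, h0, zero_mul]
      rw [h2, GG_const A hc]
      exact zero_le
  · rw [if_neg (by omega)]
    have h2 : (fun q => f (A.fpp h (p ++ q)) * ψ ((p ++ q).drop (A.fpp h (p ++ q)).length)) =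
        fun q => f p * ψ q := by
      funext q
      rw [fpp_app A q p h hp, List.drop_left]
    rw [h2, hc.GG_smul, mul_comm]
    exact mul_le_mul_left (hK _ (by omega)) _

theorem part1 (hc : Calc A) {h y : ℕ} (hy : h ≤ y) : ∀ (k R : ℕ), k * y + h ≤ R →
    A.GG R (fun l => iv (∃ g ∈ gl A h k l, y < A.H g) 1) ≤ k * A.GG h (fun g => iv (y < A.H g) 1)
  | 0, R, _ => by
    have h1 : (fun l : List B => iv (∃ g ∈ gl A h 0 l, y < A.H g) 1) = fun _ => 0 := by
      funext l
      exact iv_f (by simp [gl]) _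
    rw [h1, GG_const A hc]
    exact zero_le
  | k + 1, R, hR => by
    have e4 : (k + 1) * y = k * y + y := by ring
    have h1 : A.GG R (fun l => iv (∃ g ∈ gl A h (k + 1) l, y < A.H g) 1) ≤
        A.GG R (fun l => iv (y < A.H (A.fpp h l)) 1 + iv (A.H (A.fpp h l) ≤ y) 1 *
          iv (∃ g ∈ gl A h k (l.drop (A.fpp h l).length), y < A.H g) 1) := by
      refine hc.GG_mono _ _ _ fun l _ => ?_
      by_cases h2 : y < A.H (A.fpp h l)
      · rw [iv_t h2]
        refine le_trans ?_ le_self_add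
        unfold iv
        split_ifs
        · exact le_rfl
        · exact zero_le
      · rw [iv_f h2, zero_add, iv_t (by omega : A.H (A.fpp h l) ≤ y), one_mul]
        by_cases h3 : ∃ g ∈ gl A h (k + 1) l, y < A.H g
        · have h4 : ∃ g ∈ gl A h k (l.drop (A.fpp h l).length), y < A.H g := by
            obtain ⟨g, hg, hg2⟩ := h3
            rw [gl] at hg
            rcases List.mem_cons.1 hg with rfl | hg
            · exact absurd hg2 h2
            · exact ⟨g, hg, hg2⟩
          rw [iv_t h4, iv_t h3]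
        · rw [iv_f h3]
          exact zero_le
    refine le_trans h1 ?_
    rw [hc.GG_addf]
    have h5 : A.GG R (fun l => iv (y < A.H (A.fpp h l)) 1) =
        A.GG h (fun g => iv (y < A.H g) 1) := GG_fpp A hc (by omega) (fun g => iv (y < A.H g) 1)
    have h6 := step A hc (R0 := k * y + h) (R := R) hy (by omega) (fun p => iv (A.H p ≤ y) 1)
      (fun q => iv (∃ g ∈ gl A h k q, y < A.H g) 1) (k * A.GG h (fun g => iv (y < A.H g) 1))
      (fun p hp => iv_f (by omega) _) (fun R' hR' => part1 hc hy k R' hR')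
    have h7 : A.GG h (fun p => iv (A.H p ≤ y) 1) ≤ 1 := by
      calc A.GG h (fun p => iv (A.H p ≤ y) 1) ≤ A.GG h (fun _ => 1) :=
            hc.GG_mono _ _ _ fun p _ => by
              unfold iv
              split_ifs
              · exact le_rfl
              · exact zero_le
        _ = 1 := hc.GG_one h
    rw [h5]
    calc A.GG h (fun g => iv (y < A.H g) 1) + _
        ≤ A.GG h (fun g => iv (y < A.H g) 1) + 1 * (k * A.GG h (fun g => iv (y < A.H g) 1)) :=
          add_le_add le_rfl (le_trans h6 (mul_le_mul_left h7 _))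
      _ = ((k + 1 : ℕ) : ℝ≥0∞) * A.GG h (fun g => iv (y < A.H g) 1) := by
          push_cast
          ring

open Classical in
/-- The weight of a group. -/
noncomputable def wg (h Dd : ℕ) (g : List B) : ℝ≥0∞ := if Suc A h Dd g then 1 / 2 else 1

theorem wg_sn (h Dd : ℕ) (g : List B) (L : List (List B)) :
    (1 / 2 : ℝ≥0∞) ^ sn A h Dd (g :: L) = wg A h Dd g * (1 / 2) ^ sn A h Dd L := by
  unfold sn wg
  rw [List.filter_cons]
  by_cases hs : Suc A h Dd g
  · rw [if_pos hs]
    simp only [hs, decide_true, if_true, List.length_cons]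
    rw [pow_succ, mul_comm]
  · rw [if_neg hs]
    simp only [hs, decide_false, one_mul]
    rfl

theorem wg_le (hc : Calc A) {h Dd : ℕ} {p : ℝ} (h0 : 0 ≤ p)
    (hp : ENNReal.ofReal p ≤ A.GG h (fun g => iv (Suc A h Dd g) 1)) :
    A.GG h (wg A h Dd) ≤ ENNReal.ofReal (1 - p / 2) := by
  have e1 : A.GG h (wg A h Dd) + (1 / 2) * A.GG h (fun g => iv (Suc A h Dd g) 1) = 1 := by
    rw [← hc.GG_smul, ← hc.GG_addf]
    have : (fun g => wg A h Dd g + 1 / 2 * iv (Suc A h Dd g) 1) = fun _ => 1 := by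
      funext g
      unfold wg
      by_cases hs : Suc A h Dd g
      · rw [if_pos hs, iv_t hs, mul_one]
        exact ENNReal.add_halves 1
      · rw [if_neg hs, iv_f hs, mul_zero, add_zero]
    rw [this, hc.GG_one]
  have e2 : A.GG h (wg A h Dd) + ENNReal.ofReal (p / 2) ≤ 1 := by
    rw [← e1]
    refine add_le_add le_rfl ?_
    have : ENNReal.ofReal (p / 2) = 1 / 2 * ENNReal.ofReal p := by
      rw [show p / 2 = (1 / 2) * p by ring, ENNReal.ofReal_mul (by norm_num)]
      congr 1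
      rw [ENNReal.ofReal_div_of_pos (by norm_num)]
      simp
    rw [this]
    exact mul_le_mul_right hp _
  have e3 : A.GG h (wg A h Dd) ≤ 1 - ENNReal.ofReal (p / 2) :=
    ENNReal.le_sub_of_add_le_right ENNReal.ofReal_ne_top e2
  refine le_trans e3 (le_of_eq ?_)
  rw [ENNReal.ofReal_sub 1 (by linarith), ENNReal.ofReal_one]

theorem part2 (hc : Calc A) {h y : ℕ} (hy : h ≤ y) {Dd : ℕ} {p : ℝ} (h0 : 0 ≤ p)
    (hp : ENNReal.ofReal p ≤ A.GG h (fun g => iv (Suc A h Dd g) 1)) :
    ∀ (k R : ℕ), k * y + h ≤ R →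
    A.GG R (fun l => iv (∀ g ∈ gl A h k l, A.H g ≤ y) ((1 / 2) ^ sn A h Dd (gl A h k l))) ≤
      ENNReal.ofReal (1 - p / 2) ^ k
  | 0, R, _ => by
    rw [pow_zero]
    calc A.GG R (fun l => iv (∀ g ∈ gl A h 0 l, A.H g ≤ y) ((1 / 2) ^ sn A h Dd (gl A h 0 l)))
        ≤ A.GG R (fun _ => 1) := hc.GG_mono _ _ _ fun l _ => by
          rw [iv_t (by simp [gl])]
          simp [sn, gl]
      _ = 1 := hc.GG_one R
  | k + 1, R, hR => by
    have e4 : (k + 1) * y = k * y + y := by ring
    have h6 := step A hc (R0 := k * y + h) (R := R) hy (by omega)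
      (fun q => iv (A.H q ≤ y) (wg A h Dd q))
      (fun q => iv (∀ g ∈ gl A h k q, A.H g ≤ y) ((1 / 2) ^ sn A h Dd (gl A h k q)))
      (ENNReal.ofReal (1 - p / 2) ^ k)
      (fun p hp => iv_f (by omega) _) (fun R' hR' => part2 hc hy h0 hp k R' hR')
    have h7 : A.GG h (fun q => iv (A.H q ≤ y) (wg A h Dd q)) ≤ ENNReal.ofReal (1 - p / 2) := by
      refine le_trans (hc.GG_mono _ _ _ fun q _ => ?_) (wg_le A hc h0 hp)
      unfold iv
      split_ifs
      · exact le_rfl
      · exact zero_le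
    have h8 : (fun l => iv (∀ g ∈ gl A h (k + 1) l, A.H g ≤ y)
        ((1 / 2) ^ sn A h Dd (gl A h (k + 1) l))) = fun l =>
        iv (A.H (A.fpp h l) ≤ y) (wg A h Dd (A.fpp h l)) *
        iv (∀ g ∈ gl A h k (l.drop (A.fpp h l).length), A.H g ≤ y)
          ((1 / 2) ^ sn A h Dd (gl A h k (l.drop (A.fpp h l).length))) := by
      funext l
      rw [gl, wg_sn]
      by_cases hA : A.H (A.fpp h l) ≤ y
      · by_cases hB : ∀ g ∈ gl A h k (l.drop (A.fpp h l).length), A.H g ≤ y
        · rw [iv_t hA, iv_t hB, iv_t]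
          intro g hg
          rcases List.mem_cons.1 hg with rfl | hg
          · exact hA
          · exact hB g hg
        · rw [iv_f hB, mul_zero, iv_f]
          intro hC
          exact hB fun g hg => hC g (List.mem_cons_of_mem _ hg)
      · rw [iv_f hA, zero_mul, iv_f]
        intro hC
        exact hA (hC _ List.mem_cons_self)
    rw [h8, pow_succ, mul_comm (ENNReal.ofReal (1 - p / 2) ^ k)]
    exact le_trans h6 (mul_le_mul_left h7 _)

/-- Packet SGR. -/
theorem SGR : SGR_stmt := by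
  intro B D A hc h y k R hy hR
  refine ⟨part1 A hc hy k R hR, ?_⟩
  intro Dd n0 p h0 h1 hp
  calc A.GG R (fun l => iv ((∀ g ∈ gl A h k l, A.H g ≤ y) ∧ sn A h Dd (gl A h k l) < n0) 1)
      ≤ A.GG R (fun l => 2 ^ n0 * iv (∀ g ∈ gl A h k l, A.H g ≤ y)
          ((1 / 2) ^ sn A h Dd (gl A h k l))) := hc.GG_mono _ _ _ fun l _ => by
        by_cases hA : (∀ g ∈ gl A h k l, A.H g ≤ y) ∧ sn A h Dd (gl A h k l) < n0
        · rw [iv_t hA, iv_t hA.1, one_div, ENNReal.inv_pow.symm]
          have e1 : (2 : ℝ≥0∞) ^ sn A h Dd (gl A h k l) ≤ 2 ^ n0 :=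
            pow_le_pow_right₀ (by norm_num) hA.2.le
          have e2 : (2 : ℝ≥0∞) ^ sn A h Dd (gl A h k l) ≠ 0 := by positivity
          have e3 : (2 : ℝ≥0∞) ^ sn A h Dd (gl A h k l) ≠ ⊤ := by finiteness
          rw [← ENNReal.mul_inv_cancel e2 e3]
          exact mul_le_mul_left e1 _
        · rw [iv_f hA]
          exact zero_le
    _ = 2 ^ n0 * A.GG R (fun l => iv (∀ g ∈ gl A h k l, A.H g ≤ y)
          ((1 / 2) ^ sn A h Dd (gl A h k l))) := hc.GG_smul _ _ _
    _ ≤ 2 ^ n0 * ENNReal.ofReal (1 - p / 2) ^ k :=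
        mul_le_mul_right (part2 A hc hy h0 hp k R hR) _
    _ = ENNReal.ofReal (2 ^ n0 * (1 - p / 2) ^ k) := by
        have q1 : (0 : ℝ) ≤ 2 ^ n0 := by positivity
        have q2 : (0 : ℝ) ≤ 1 - p / 2 := by linarith
        rw [ENNReal.ofReal_mul q1, ENNReal.ofReal_pow q2,
          ENNReal.ofReal_pow (by norm_num), ENNReal.ofReal_ofNat]

end Pool.Agent.Helper93.NSF.Sgr
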